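import Pool.Agent.Helper65.UW.EWS
import Pool.Agent.Helper7.UW.Close
import Pool.Agent.Helper60.UW.R

/-!
# UW R10, R11
-/

set_option autoImplicit false
open MeasureTheory Set Filter Topology
open Pool.Agent.Helper57.Zeta Pool.Agent.Helper57.LH Pool.Agent.Helper57.ED Pool.Agent.Helper54.LG
open Pool.Agent.Helper69.UG (pt XX NR NM WW)
open Pool.Agent.Helper69.UV (ww HH)
open Pool.Agent.Helper69.UW (Adm PR sw rp rr RR VV wt WP WS ll vv)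

namespace Pool.Agent.Helper65.UW

variable {δ : ℝ}

/-- R10: the mean of the prime sum, averaged over the window. -/
theorem eWS (hδ : 0 < δ) (hδ1 : δ ≤ 1 / 32) : ∃ c0 T0 : ℝ, ∀ T c m v : ℝ, T0 ≤ T → Adm c0 T c m → |v| = vv δ c m →
    ∀ τ : ℝ, (1 + 10 * δ) * √m * |v| * VV δ T c m v ≤ v * ∫ t, wt δ T c m v τ t * WS T c m t :=
  eWS_of hδ hδ1 (Pool.Agent.Helper36.UW.rr_bd hδ hδ1) (Pool.Agent.Helper7.UW.PR_facts hδ hδ1)
    (Pool.Agent.Helper7.UW.PR_mass hδ hδ1) (Pool.Agent.Helper7.UW.WP_bd hδ hδ1) (Pool.Agent.Helper60.UW.ecos hδ hδ1)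

/-- R11: second moment of the prime sum, all kernel scales. -/
theorem vSS (hδ : 0 < δ) (hδ1 : δ ≤ 1 / 32) : ∃ C c0 T0 : ℝ, 0 < C ∧ ∀ T c m v : ℝ, T0 ≤ T → Adm c0 T c m →
    |v| = vv δ c m → ∀ M τ u : ℝ, m ≤ M → M ≤ 2 * c →
    ∫ t, wt δ T c m v τ t * SS (XX T M) (t + u) ^ 2 ≤ C * M * VV δ T c m v :=
  vSS_of (Pool.Agent.Helper36.UW.rr_bd hδ hδ1)

end Pool.Agent.Helper65.UW
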