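import Pool.Agent.Helper65.UW.Base

/-!
# UW R11: second moment of the prime sum, all kernel scales
-/

set_option autoImplicit false
open MeasureTheory Set Filter Topology
open Pool.Agent.Helper57.Zeta Pool.Agent.Helper57.LH Pool.Agent.Helper57.ED Pool.Agent.Helper54.LG
open Pool.Agent.Helper69.UG (pt XX NR NM WW)
open Pool.Agent.Helper69.UV (ww HH)
open Pool.Agent.Helper69.UW (Adm PR sw rp rr RR VV wt WP WS ll vv)
open Pool.Agent.Helper65.UG (ee ee_norm ee_cont ee_mul ee_add int_PW_bdd cf SS_eq cf_bd DD SS_le cpow_ee DD_cont DD_bdd SS_cont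
  SS_bdd mv diag)

namespace Pool.Agent.Helper65.UW

/-- The statement R2. -/
def StR2 (δ : ℝ) : Prop := ∃ c0 T0 : ℝ, ∀ T c m v : ℝ, T0 ≤ T → Adm c0 T c m → |v| = vv δ c m →
    ∀ n, |rr δ T c m v n| ≤ T ^ (1 / 192 : ℝ) ∧ 1 ≤ VV δ T c m v

theorem vSS_of {δ : ℝ} (hR2 : StR2 δ) : ∃ C c0 T0 : ℝ, 0 < C ∧ ∀ T c m v : ℝ, T0 ≤ T → Adm c0 T c m →
    |v| = vv δ c m → ∀ M τ u : ℝ, m ≤ M → M ≤ 2 * c →
    ∫ t, wt δ T c m v τ t * SS (XX T M) (t + u) ^ 2 ≤ C * M * VV δ T c m v := by
  obtain ⟨c1, T1, hR2⟩ := hR2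
  have hCM := Pool.Agent.Helper57.LS.CMe_pos
  refine ⟨10 + Pool.Agent.Helper57.LS.CMe, max c1 64, max T1 (Real.exp (Real.exp 1)), by linarith, ?_⟩
  intro T c m v hT hadm hv Ms τ u hmM hM2
  have hadm1 : Adm c1 T c m := hadm.mono (le_max_left _ _)
  obtain ⟨hT1, hlog1, hm64, hM64, hX16, hXlog, hXe, hcX⟩ := adm_facts ((le_max_right _ _).trans hT)
    (le_max_right _ _) hadm hmM hM2
  have hT0 : 0 < T := by linarith
  have hr := fun n => (hR2 T c m v ((le_max_left _ _).trans hT) hadm1 hv n).1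
  have hV := (hR2 T c m v ((le_max_left _ _).trans hT) hadm1 hv 0).2
  set X := XX T Ms with hXdef
  have hX0 : 0 < X := by linarith
  set M := NR T with hM
  set N := ⌊Real.exp X⌋₊ with hN
  have hMle : (M : ℝ) ≤ T ^ (1 / 8 : ℝ) := Nat.floor_le (by positivity)
  have hNle : (N : ℝ) ≤ T ^ (1 / 64 : ℝ) := (Nat.floor_le (Real.exp_pos X).le).trans hXe
  have hM1 : 1 ≤ M := (Nat.one_le_floor_iff _).2 (Real.one_le_rpow hT1 (by norm_num))
  have hN1 : 1 ≤ N := (Nat.one_le_floor_iff _).2 (Real.one_le_exp hX0.le)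
  set s := Finset.Icc 1 M ×ˢ Finset.Icc 1 N with hs
  set b : ℕ × ℕ → ℂ := fun i => (((rr δ T c m v i.1 / Real.sqrt i.1 : ℝ) : ℂ) * (cf X i.2 : ℂ)) * ee i.2 u with hb
  have hW : 0 < WW T := Real.rpow_pos_of_pos hT0 _
  -- the product
  have hprod : ∀ t, RR δ T c m v t * DD X (t + u) = ∑ i ∈ s, b i * ee (i.1 * i.2) t := by
    intro t
    rw [RR_eq, DD, Finset.sum_mul_sum, ← Finset.sum_product']
    refine Finset.sum_congr rfl fun i hi => ?_
    rw [Finset.mem_product] at hi
    have h1 := (Finset.mem_Icc.1 hi.1).1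
    have h2 := (Finset.mem_Icc.1 hi.2).1
    rw [ee_mul (by omega) (by omega), ee_add, hb]
    ring
  have hle : ∫ t, wt δ T c m v τ t * SS X (t + u) ^ 2 ≤
      ∫ t, PW (WW T) (t - τ) * ‖∑ i ∈ s, b i * ee (i.1 * i.2) t‖ ^ 2 := by
    have hpt : ∀ t, wt δ T c m v τ t * SS X (t + u) ^ 2 ≤ PW (WW T) (t - τ) * ‖∑ i ∈ s, b i * ee (i.1 * i.2) t‖ ^ 2 := by
      intro t
      rw [← hprod, norm_mul, mul_pow, ← mul_assoc]
      exact mul_le_mul_of_nonneg_left (SS_le X (t + u)) (wt_nonneg hT0 t)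
    apply integral_mono_of_nonneg
    · exact Eventually.of_forall fun t => mul_nonneg (wt_nonneg hT0 t) (sq_nonneg _)
    · obtain ⟨B, hB⟩ := RR_bdd δ T c m v
      obtain ⟨B', hB'⟩ := DD_bdd X
      have h := int_PW_bdd hW τ (f := fun t => ‖RR δ T c m v t * DD X (t + u)‖ ^ 2)
        ((((RR_cont δ T c m v).mul ((DD_cont X).comp (continuous_id.add continuous_const))).norm.pow 2))
        (C := (B * B') ^ 2) (fun t => by
          rw [abs_of_nonneg (by positivity), norm_mul]
          have h1 : ‖RR δ T c m v t‖ * ‖DD X (t + u)‖ ≤ B * B' :=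
            mul_le_mul (hB t) (hB' _) (norm_nonneg _) ((norm_nonneg _).trans (hB t))
          exact pow_le_pow_left₀ (by positivity) h1 2)
      simpa only [hprod] using h
    · exact Eventually.of_forall hpt
  refine hle.trans ?_
  have hkey : ∀ i ∈ s, 1 ≤ i.1 * i.2 ∧ i.1 * i.2 ≤ M * N := by
    intro i hi
    rw [hs, Finset.mem_product, Finset.mem_Icc, Finset.mem_Icc] at hi
    exact ⟨Nat.mul_le_mul hi.1.1 hi.2.1, Nat.mul_le_mul hi.1.2 hi.2.2⟩
  have hmv := mv hW τ s (fun i => i.1 * i.2) b hkey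
  refine hmv.trans ?_
  -- norms of the coefficients
  have hbn : ∀ i ∈ s, ‖b i‖ = |rr δ T c m v i.1| / Real.sqrt i.1 * cf X i.2 := by
    intro i hi
    rw [hs, Finset.mem_product] at hi
    rw [hb]
    simp only
    rw [norm_mul, norm_mul, ee_norm, mul_one, Complex.norm_real, Complex.norm_real, Real.norm_eq_abs,
      Real.norm_eq_abs, abs_div, abs_of_nonneg (Real.sqrt_nonneg _), abs_of_nonneg (cf_bd hX0 hi.2).1]
  have hdiag : (∑ i ∈ s, ∑ j ∈ s, if i.1 * i.2 = j.1 * j.2 then ‖b i‖ * ‖b j‖ else 0) ≤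
      Ms * (VV δ T c m v * (2 + Pool.Agent.Helper57.LS.CMe)) := by
    have h1 : (∑ i ∈ s, ∑ j ∈ s, if i.1 * i.2 = j.1 * j.2 then ‖b i‖ * ‖b j‖ else 0) =
        ∑ i ∈ s, ∑ j ∈ s, if i.1 * i.2 = j.1 * j.2 then
          (|rr δ T c m v i.1| / Real.sqrt i.1 * cf X i.2) * (|rr δ T c m v j.1| / Real.sqrt j.1 * cf X j.2) else 0 := by
      refine Finset.sum_congr rfl fun i hi => Finset.sum_congr rfl fun j hj => ?_
      rw [hbn i hi, hbn j hj]
    rw [h1]
    have hlogT : Real.log (T ^ (1 / 8 : ℝ)) = Real.log T / 8 := by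
      rw [Real.log_rpow hT0]
      ring
    have h2 := diag (M := M) (N := N) (rr δ T c m v) (cf X) (η := 2 / X) (K := Ms) (by positivity)
      (fun n hn => ⟨(cf_bd hX0 hn).1, (cf_bd hX0 hn).2.1⟩) (fun k hk n hn => by
        have hk' := Finset.mem_Icc.1 hk
        have hk0 : (0:ℝ) < k := by exact_mod_cast hk'.1
        have hn0 : (0:ℝ) < n := by exact_mod_cast (Finset.mem_Icc.1 hn).1
        have h3 : Real.log k ≤ Real.log T / 8 := by
          rw [← hlogT]
          apply Real.log_le_log hk0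
          have : (k : ℝ) ≤ M := by exact_mod_cast hk'.2
          exact this.trans hMle
        have h4 := (cf_bd hX0 hn).2.2.2
        rw [Nat.cast_mul, Real.log_mul hk0.ne' hn0.ne']
        have h6 : 2 / X * (Real.log k + Real.log n) ≤ 2 / X * (Ms * X / 8 + X) := by
          apply mul_le_mul_of_nonneg_left _ (by positivity)
          rw [hcX]
          linarith
        have h7 : 2 / X * (Ms * X / 8 + X) = Ms / 4 + 2 := by
          field_simp
          ring
        rw [h7] at h6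
        linarith)
    refine h2.trans ?_
    apply mul_le_mul_of_nonneg_left _ (by linarith)
    apply mul_le_mul le_rfl _ _ (by change 0 ≤ VV δ T c m v; linarith)
    · have h8 := Pool.Agent.Helper57.LS.mertens hX0.le
      rw [abs_le] at h8
      have h9 : ∑ n ∈ Finset.Icc 1 N, 2 / X * ArithmeticFunction.vonMangoldt n / n ≤
          2 / X * ∑ n ∈ Finset.range (Pool.Agent.Helper57.LH.NX X + 1), ArithmeticFunction.vonMangoldt n / n := by
        rw [Finset.mul_sum]
        have h10 : ∀ n : ℕ, 2 / X * ArithmeticFunction.vonMangoldt n / n = 2 / X * (ArithmeticFunction.vonMangoldt n / n) := by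
          intro n
          ring
        simp_rw [h10]
        apply Finset.sum_le_sum_of_subset_of_nonneg
        · intro n hn
          rw [Finset.mem_Icc] at hn
          rw [Finset.mem_range]
          have : Pool.Agent.Helper57.LH.NX X = N := rfl
          omega
        · intro n _ _
          have := ArithmeticFunction.vonMangoldt_nonneg (n := n)
          positivity
      refine h9.trans ?_
      calc 2 / X * ∑ n ∈ Finset.range (Pool.Agent.Helper57.LH.NX X + 1), ArithmeticFunction.vonMangoldt n / n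
          ≤ 2 / X * (X + Pool.Agent.Helper57.LS.CMe) := by
            apply mul_le_mul_of_nonneg_left _ (by positivity)
            linarith [h8.2]
        _ = 2 + 2 / X * Pool.Agent.Helper57.LS.CMe := by
            field_simp
        _ ≤ 2 + Pool.Agent.Helper57.LS.CMe := by
            have h11 : 2 / X ≤ 1 := by
              rw [div_le_one hX0]
              linarith
            have h12 : 2 / X * Pool.Agent.Helper57.LS.CMe ≤ 1 * Pool.Agent.Helper57.LS.CMe :=
              mul_le_mul_of_nonneg_right h11 hCM.le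
            linarith
    · exact Finset.sum_nonneg fun n _ => by
        have := ArithmeticFunction.vonMangoldt_nonneg (n := n)
        positivity
  have herr : (∑ i ∈ s, ‖b i‖) ^ 2 * Real.exp (-(WW T / ((M * N : ℕ) : ℝ))) ≤ 8 := by
    have h1 : ∑ i ∈ s, ‖b i‖ ≤ 2 * T ^ (1 / 2 : ℝ) := by
      have h2 : ∀ i ∈ s, ‖b i‖ ≤ 2 * T ^ (1 / 192 : ℝ) := by
        intro i hi
        rw [hbn i hi]
        rw [hs, Finset.mem_product] at hi
        have h3 : (1:ℝ) ≤ Real.sqrt i.1 := Real.one_le_sqrt.2 (by exact_mod_cast (Finset.mem_Icc.1 hi.1).1)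
        have h4 : |rr δ T c m v i.1| / Real.sqrt i.1 ≤ T ^ (1 / 192 : ℝ) :=
          (div_le_self (abs_nonneg _) h3).trans (hr _)
        calc _ ≤ T ^ (1 / 192 : ℝ) * 2 :=
              mul_le_mul h4 (cf_bd hX0 hi.2).2.2.1 (cf_bd hX0 hi.2).1 (by positivity)
          _ = _ := by ring
      calc ∑ i ∈ s, ‖b i‖ ≤ ∑ i ∈ s, 2 * T ^ (1 / 192 : ℝ) := Finset.sum_le_sum h2
        _ = (M * N) * (2 * T ^ (1 / 192 : ℝ)) := by
            rw [Finset.sum_const, hs, Finset.card_product, Nat.card_Icc, Nat.card_Icc, nsmul_eq_mul]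
            push_cast
            simp
        _ ≤ (T ^ (1 / 8 : ℝ) * T ^ (1 / 64 : ℝ)) * (2 * T ^ (1 / 192 : ℝ)) := by
            apply mul_le_mul_of_nonneg_right _ (by positivity)
            exact mul_le_mul hMle hNle (by positivity) (by positivity)
        _ = 2 * T ^ (1 / 8 + 1 / 64 + 1 / 192 : ℝ) := by
            rw [Real.rpow_add hT0, Real.rpow_add hT0]
            ring
        _ ≤ 2 * T ^ (1 / 2 : ℝ) := by
            apply mul_le_mul_of_nonneg_left _ (by norm_num)
            exact Real.rpow_le_rpow_of_exponent_le hT1 (by norm_num)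
    have h5 : (∑ i ∈ s, ‖b i‖) ^ 2 ≤ 4 * (T ^ (1 / 2 : ℝ)) ^ 2 := by
      calc (∑ i ∈ s, ‖b i‖) ^ 2 ≤ (2 * T ^ (1 / 2 : ℝ)) ^ 2 :=
            pow_le_pow_left₀ (Finset.sum_nonneg fun _ _ => norm_nonneg _) h1 2
        _ = 4 * (T ^ (1 / 2 : ℝ)) ^ 2 := by ring
    have h6 : T ^ (1 / 2 : ℝ) ≤ WW T / ((M * N : ℕ) : ℝ) := by
      have hMN : (0:ℝ) < ((M * N : ℕ) : ℝ) := by exact_mod_cast Nat.mul_pos hM1 hN1
      rw [le_div_iff₀ hMN]
      calc T ^ (1 / 2 : ℝ) * ((M * N : ℕ) : ℝ) ≤ T ^ (1 / 2 : ℝ) * (T ^ (1 / 8 : ℝ) * T ^ (1 / 64 : ℝ)) := by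
            apply mul_le_mul_of_nonneg_left _ (by positivity)
            push_cast
            exact mul_le_mul hMle hNle (by positivity) (by positivity)
        _ = T ^ (1 / 2 + 1 / 8 + 1 / 64 : ℝ) := by
            rw [Real.rpow_add hT0, Real.rpow_add hT0]
            ring
        _ ≤ WW T := by
            unfold WW
            exact Real.rpow_le_rpow_of_exponent_le hT1 (by norm_num)
    have h7 : Real.exp (-(WW T / ((M * N : ℕ) : ℝ))) ≤ Real.exp (-(T ^ (1 / 2 : ℝ))) :=
      Real.exp_le_exp.2 (neg_le_neg h6)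
    calc _ ≤ (4 * (T ^ (1 / 2 : ℝ)) ^ 2) * Real.exp (-(T ^ (1 / 2 : ℝ))) :=
          mul_le_mul h5 h7 (Real.exp_pos _).le (by positivity)
      _ ≤ 8 := by
          have h8 := Real.quadratic_le_exp_of_nonneg (x := T ^ (1 / 2 : ℝ)) (by positivity)
          have h9 : 0 ≤ T ^ (1 / 2 : ℝ) := by positivity
          rw [Real.exp_neg, ← div_eq_mul_inv, div_le_iff₀ (Real.exp_pos _)]
          linarith
  calc _ ≤ Ms * (VV δ T c m v * (2 + Pool.Agent.Helper57.LS.CMe)) + 8 := add_le_add hdiag herr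
    _ ≤ (10 + Pool.Agent.Helper57.LS.CMe) * Ms * VV δ T c m v := by
        have h9 : (1:ℝ) ≤ Ms * VV δ T c m v := by
          have : 1 * 1 ≤ Ms * VV δ T c m v := mul_le_mul (by linarith) hV (by norm_num) (by linarith)
          linarith
        have h10 : (10 + Pool.Agent.Helper57.LS.CMe) * Ms * VV δ T c m v =
            Ms * (VV δ T c m v * (2 + Pool.Agent.Helper57.LS.CMe)) + 8 * (Ms * VV δ T c m v) := by ring
        rw [h10]
        linarith

end Pool.Agent.Helper65.UW
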